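import Pool.Agent.MP_635355_lc.Defs
import Pool.Agent.MP_635355_lc.Mg.Bridge

namespace Pool.Agent.Results.MP_635355_lc.TreeProperty

open Cardinal Pool.Agent.MP_635355_lc

universe u

/-- If CH fails and every stationary subset of `[ω_2]^ω` reflects to a set of size `ω_1`, then
there is no `ω_2`-Aronszajn tree. -/
theorem result (hCH : (2 : Cardinal.{u}) ^ ℵ₀ ≠ ℵ_ 1) (hR : Reflection.{u}) :
    ¬ ∃ (T : Type u) (_ : PartialOrder T), IsAronszajn T :=
  fun ⟨T, _, hT⟩ => not_isAronszajn hCH hR T hT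

end Pool.Agent.Results.MP_635355_lc.TreeProperty
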